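import Pool.Agent.Lib.MP_1c8e06_ag.AI.Defs2

set_option autoImplicit false

open Polynomial

namespace Pool.Agent.MP_1c8e06_ag.AI

noncomputable section

section
variable {p : ℕ} [hp : Fact p.Prime] {R : Type} [CommRing R] {F : R[X]}

theorem coordE_add (a b : EE p F) (j : ℕ) :
    coordE p F (a + b) j = coordE p F a j + coordE p F b j := by
  simp [coordE]

theorem coordE_sub (a b : EE p F) (j : ℕ) :
    coordE p F (a - b) j = coordE p F a j - coordE p F b j := by
  simp [coordE]

theorem coordE_neg (a : EE p F) (j : ℕ) :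
    coordE p F (-a) j = -coordE p F a j := by
  simp [coordE]

theorem coordE_zero (j : ℕ) : coordE p F 0 j = 0 := by
  simp [coordE]

theorem coordE_sum {ι : Type} (s : Finset ι) (f : ι → EE p F) (j : ℕ) :
    coordE p F (∑ i ∈ s, f i) j = ∑ i ∈ s, coordE p F (f i) j := by
  simp [coordE]

theorem coordE_ofL_mul (c : LaurentSeries R) (a : EE p F) (j : ℕ) :
    coordE p F (ofL p F c * a) j = c * coordE p F a j := by
  have h : ofL p F c * a = c • a := by
    rw [Algebra.smul_def]
    rfl
  rw [h, coordE, map_smul, Polynomial.coeff_smul, smul_eq_mul]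
  rfl

theorem coordE_of_le [Nontrivial R] (a : EE p F) {j : ℕ} (hj : p ≤ j) : coordE p F a j = 0 := by
  obtain ⟨f, rfl⟩ := AdjoinRoot.mk_surjective a
  rw [coordE, AdjoinRoot.modByMonicHom_mk]
  refine Polynomial.coeff_eq_zero_of_degree_lt ?_
  refine lt_of_lt_of_le (Polynomial.degree_modByMonic_lt _ (asPoly_monic p F)) ?_
  rw [Polynomial.degree_eq_natDegree (asPoly_monic p F).ne_zero, asPoly_natDegree]
  exact_mod_cast hj

theorem eq_sum_coordE [Nontrivial R] (a : EE p F) :
    a = ∑ j ∈ Finset.range p, ofL p F (coordE p F a j) * yy p F ^ j := by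
  obtain ⟨f, rfl⟩ := AdjoinRoot.mk_surjective a
  have h1 : AdjoinRoot.mk (asPoly p F) f = AdjoinRoot.mk (asPoly p F) (f %ₘ asPoly p F) := by
    rw [AdjoinRoot.mk_eq_mk, Polynomial.modByMonic_eq_sub_mul_div]
    simp
  have hd : (f %ₘ asPoly p F).natDegree < p := by
    have h2 := Polynomial.natDegree_modByMonic_lt f (asPoly_monic p F) (by
      intro h
      have h3 := asPoly_natDegree p F
      rw [h, natDegree_one] at h3
      exact hp.out.ne_zero h3.symm)
    rwa [asPoly_natDegree] at h2
  have h3 : AdjoinRoot.mk (asPoly p F) (f %ₘ asPoly p F) =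
      ∑ j ∈ Finset.range p, ofL p F ((f %ₘ asPoly p F).coeff j) * yy p F ^ j := by
    conv_lhs => rw [Polynomial.as_sum_range' _ p hd]
    rw [map_sum]
    refine Finset.sum_congr rfl fun j _ => ?_
    rw [← Polynomial.C_mul_X_pow_eq_monomial, map_mul, map_pow]
    rfl
  rw [h1, h3]
  refine Finset.sum_congr rfl fun j _ => ?_
  congr 2
  rw [← h3, ← h1, coordE, AdjoinRoot.modByMonicHom_mk]

theorem coordE_sum_yy [Nontrivial R] (c : ℕ → LaurentSeries R) {j : ℕ} (hj : j < p) :
    coordE p F (∑ i ∈ Finset.range p, ofL p F (c i) * yy p F ^ i) j = c j := by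
  have h : ∑ i ∈ Finset.range p, ofL p F (c i) * yy p F ^ i =
      AdjoinRoot.mk (asPoly p F) (∑ i ∈ Finset.range p, C (c i) * X ^ i) := by
    rw [map_sum]
    refine Finset.sum_congr rfl fun i _ => ?_
    rw [map_mul, map_pow]
    rfl
  have hd : (∑ i ∈ Finset.range p, C (c i) * X ^ i).degree < (asPoly p F).degree := by
    rw [Polynomial.degree_eq_natDegree (asPoly_monic p F).ne_zero, asPoly_natDegree]
    have hmem : ∑ i ∈ Finset.range p, C (c i) * X ^ i ∈ Polynomial.degreeLT (LaurentSeries R) p := by
      refine Submodule.sum_mem _ fun i hi => ?_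
      rw [Polynomial.mem_degreeLT]
      refine lt_of_le_of_lt (Polynomial.degree_C_mul_X_pow_le _ _) ?_
      exact_mod_cast Finset.mem_range.1 hi
    exact Polynomial.mem_degreeLT.1 hmem
  rw [h, coordE, AdjoinRoot.modByMonicHom_mk,
    (Polynomial.modByMonic_eq_self_iff (asPoly_monic p F)).2 hd, Polynomial.finsetSum_coeff,
    Finset.sum_eq_single j]
  · simp
  · intro i _ hij
    rw [Polynomial.coeff_C_mul_X_pow, if_neg (Ne.symm hij)]
  · intro h1
    exact absurd (Finset.mem_range.2 hj) h1

theorem extE [Nontrivial R] {a b : EE p F} (h : ∀ j < p, coordE p F a j = coordE p F b j) :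
    a = b := by
  rw [eq_sum_coordE a, eq_sum_coordE b]
  refine Finset.sum_congr rfl fun j hj => ?_
  rw [h j (Finset.mem_range.1 hj)]

theorem coordE_ofL [Nontrivial R] (c : LaurentSeries R) (j : ℕ) :
    coordE p F (ofL p F c) j = if j = 0 then c else 0 := by
  by_cases hj : j < p
  · have h := coordE_sum_yy (p := p) (F := F) (fun i => if i = 0 then c else 0) hj
    rw [Finset.sum_eq_single 0] at h
    · simpa using h
    · intro i _ hi
      simp [hi]
    · intro h1
      exact absurd (Finset.mem_range.2 hp.out.pos) h1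
  · rw [coordE_of_le _ (not_lt.1 hj), if_neg]
    have := hp.out.pos
    omega

theorem ofL_injective [Nontrivial R] : Function.Injective (ofL p F) := by
  intro a b h
  have h1 := coordE_ofL (p := p) (F := F) a 0
  rw [h, coordE_ofL] at h1
  simpa using h1.symm

end

section
variable {R : Type} [CommRing R]

theorem zinv_coeff (f : R[X]) (n : ℤ) :
    (zinv R f).coeff n = if n ≤ 0 then f.coeff (-n).toNat else 0 := by
  have h : zinv R f = ∑ i ∈ f.support, HahnSeries.single (-(i : ℤ)) (f.coeff i) := by
    rw [zinv, Polynomial.coe_eval₂RingHom, Polynomial.eval₂_eq_sum, Polynomial.sum_def]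
    refine Finset.sum_congr rfl fun i _ => ?_
    rw [HahnSeries.single_pow, HahnSeries.C_apply, HahnSeries.single_mul_single]
    simp
  rw [h, HahnSeries.coeff_sum]
  split_ifs with hn
  · obtain ⟨m, rfl⟩ : ∃ m : ℕ, n = -(m : ℤ) := ⟨(-n).toNat, by omega⟩
    simp only [neg_neg, Int.toNat_natCast]
    by_cases hm : m ∈ f.support
    · rw [Finset.sum_eq_single m]
      · simp
      · intro i _ him
        rw [HahnSeries.coeff_single_of_ne]
        intro h1
        apply him
        omega
      · intro h1
        exact absurd hm h1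
    · rw [Polynomial.notMem_support_iff.1 hm]
      refine Finset.sum_eq_zero fun i hi => ?_
      rw [HahnSeries.coeff_single_of_ne]
      intro h1
      have : m = i := by omega
      exact hm (this ▸ hi)
  · refine Finset.sum_eq_zero fun i _ => ?_
    rw [HahnSeries.coeff_single_of_ne]
    omega

theorem zinv_X : zinv R X = HahnSeries.single (-1 : ℤ) (1 : R) := by
  simp [zinv]

theorem zinv_C (c : R) : zinv R (C c) = HahnSeries.C c := by
  simp [zinv]

theorem zinv_injective : Function.Injective (zinv R) := by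
  intro f g h
  ext n
  have h1 := congrArg (fun a => HahnSeries.coeff a (-(n : ℤ))) h
  simp only [zinv_coeff] at h1
  simpa using h1

end

section
variable {p : ℕ} [hp : Fact p.Prime] {R : Type} [CommRing R] {F : R[X]}

theorem ze_injective [Nontrivial R] : Function.Injective (ze p F) :=
  ofL_injective.comp zinv_injective

theorem ze_apply (f : R[X]) : ze p F f = ofL p F (zinv R f) := rfl

theorem coordE_ze_mul (f : R[X]) (a : EE p F) (j : ℕ) :
    coordE p F (ze p F f * a) j = zinv R f * coordE p F a j := coordE_ofL_mul _ _ _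

/-- multiplication by `X ^ d` shifts the coefficients by `d`. -/
theorem coeff_coordE_X_pow_mul (d : ℕ) (c : R) (a : EE p F) (j : ℕ) (i : ℤ) :
    (coordE p F (ze p F (C c * X ^ d) * a) j).coeff i = c * (coordE p F a j).coeff (i + d) := by
  have hC : ∀ z : LaurentSeries R, (HahnSeries.C c * z).coeff i = c * z.coeff i := fun z => by
    rw [HahnSeries.C_mul_eq_smul, HahnSeries.coeff_smul, smul_eq_mul]
  rw [coordE_ze_mul, map_mul, map_pow, zinv_X, zinv_C, HahnSeries.single_pow, one_pow, mul_assoc,
    hC]
  congr 1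
  have h := HahnSeries.coeff_single_mul_add (r := (1 : R)) (x := coordE p F a j) (a := i + d)
    (b := d • (-1 : ℤ))
  rw [one_mul] at h
  rw [← h]
  congr 1
  simp

theorem yy_pow_eq : yy p F ^ p = yy p F + ze p F F := by
  have h := yy_pow p F
  linear_combination h

theorem tau_ofL [CharP R p] (c : LaurentSeries R) : tau p F (ofL p F c) = ofL p F c :=
  AdjoinRoot.lift_of _

theorem tau_yy [CharP R p] : tau p F (yy p F) = yy p F + 1 :=
  AdjoinRoot.lift_root _

theorem tau_ze [CharP R p] (f : R[X]) : tau p F (ze p F f) = ze p F f := tau_ofL _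

theorem tau_iterate_p [CharP R p] [Nontrivial R] (a : EE p F) : (tau p F)^[p] a = a := by
  have h1 : ∀ n : ℕ, ∀ c, (tau p F)^[n] (ofL p F c) = ofL p F c := by
    intro n c
    induction n with
    | zero => rfl
    | succ n ih => rw [Function.iterate_succ_apply', ih, tau_ofL]
  have h2 : ∀ n : ℕ, (tau p F)^[n] (yy p F) = yy p F + n := by
    intro n
    induction n with
    | zero => simp
    | succ n ih => rw [Function.iterate_succ_apply', ih, map_add, tau_yy, map_natCast]; push_cast; ring
  have hp0 : ((p : ℕ) : EE p F) = 0 := by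
    have h1 : ((p : ℕ) : EE p F) = ofL p F (HahnSeries.C ((p : ℕ) : R)) := by
      rw [map_natCast, map_natCast]
    rw [h1, CharP.cast_eq_zero, map_zero, map_zero]
  conv_lhs => rw [eq_sum_coordE a]
  conv_rhs => rw [eq_sum_coordE a]
  rw [← RingHom.coe_pow, map_sum]
  refine Finset.sum_congr rfl fun j _ => ?_
  rw [map_mul, map_pow, RingHom.coe_pow, h1, h2, hp0, add_zero]

end

section
variable {p : ℕ} [hp : Fact p.Prime] {R S : Type} [CommRing R] [CommRing S] (φ : R →+* S)
  {F : R[X]}

theorem mapE_ofL (c : LaurentSeries R) :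
    mapE p φ F (ofL p F c) = ofL p (F.map φ) (mapL φ c) := AdjoinRoot.lift_of _

theorem mapE_yy : mapE p φ F (yy p F) = yy p (F.map φ) := AdjoinRoot.lift_root _

theorem mapE_ze (f : R[X]) : mapE p φ F (ze p F f) = ze p (F.map φ) (f.map φ) := by
  rw [ze_apply, mapE_ofL, mapL_zinv]
  rfl

theorem coordE_mapE [Nontrivial R] [Nontrivial S] (a : EE p F) (j : ℕ) :
    coordE p (F.map φ) (mapE p φ F a) j = mapL φ (coordE p F a j) := by
  by_cases hj : j < p
  · conv_lhs => rw [eq_sum_coordE a]
    rw [map_sum]
    simp only [map_mul, map_pow, mapE_ofL, mapE_yy]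
    exact coordE_sum_yy (fun i => mapL φ (coordE p F a i)) hj
  · rw [coordE_of_le _ (not_lt.1 hj), coordE_of_le _ (not_lt.1 hj), map_zero]

theorem mapE_tau [CharP R p] [CharP S p] [Nontrivial R] (a : EE p F) :
    mapE p φ F (tau p F a) = tau p (F.map φ) (mapE p φ F a) := by
  rw [eq_sum_coordE a]
  simp only [map_sum, map_mul, map_pow, mapE_ofL, mapE_yy, tau_ofL, tau_yy, map_add, map_one]

theorem mapE_injective [Nontrivial R] [Nontrivial S] (hφ : Function.Injective φ) :
    Function.Injective (mapE p φ F) := by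
  intro a b h
  refine extE fun j _ => ?_
  have h1 := congrArg (fun z => coordE p (F.map φ) z j) h
  simp only [coordE_mapE] at h1
  ext n
  have h2 := congrArg (fun z => HahnSeries.coeff z n) h1
  exact hφ h2

end

end

end Pool.Agent.MP_1c8e06_ag.AI
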