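import Pool.Agent.Lib.MP_1c8e06_ag.AI.Defs3

set_option autoImplicit false

open Polynomial

namespace Pool.Agent.MP_1c8e06_ag.AI

noncomputable section

/-!
# Task BA7: the group `H₀ = 𝒞 ⋊ ℤ/p` and its two actions

Data: `e` prime to `p`, `𝒞 = {c : ZMod p → ZMod e | ∑ c_i = 0}`; `ZMod p` acts on `𝒞` by
`(m • c) i = c (i + m)`.  `H₀ := SemidirectProduct (Multiplicative 𝒞) (Multiplicative (ZMod p)) _`.
The statement is abstract: it describes `H₀` by its generators and a universal property.
Proof.  `inl`, `inr` are the embeddings.  Universal property: `SemidirectProduct.lift`.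
Every element is `inl c * inr m`.
-/

/-- The group `𝒞` of exponent vectors of sum zero. -/
def CC (p e : ℕ) [NeZero p] : AddSubgroup (ZMod p → ZMod e) where
  carrier := {c | ∑ i, c i = 0}
  add_mem' := by
    intro a b ha hb
    simp only [Set.mem_setOf_eq] at *
    simp [Finset.sum_add_distrib, ha, hb]
  zero_mem' := by simp
  neg_mem' := by
    intro a ha
    simp only [Set.mem_setOf_eq] at *
    simp [ha]

/-- The shift by `m` on `CC p e`. -/
private def BA7_sh (p e : ℕ) [NeZero p] (m : ZMod p) : CC p e →+ CC p e where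
  toFun c := ⟨fun i => (c : ZMod p → ZMod e) (i + m), by
    have h := c.2
    change ∑ i, (c : ZMod p → ZMod e) i = 0 at h
    change ∑ i, (c : ZMod p → ZMod e) (i + m) = 0
    rw [← h]
    exact Equiv.sum_comp (Equiv.addRight m) (fun i => (c : ZMod p → ZMod e) i)⟩
  map_zero' := rfl
  map_add' _ _ := rfl

private theorem BA7_sh_apply (p e : ℕ) [NeZero p] (m : ZMod p) (c : CC p e) (i : ZMod p) :
    (BA7_sh p e m c : ZMod p → ZMod e) i = (c : ZMod p → ZMod e) (i + m) := rfl

private theorem BA7_sh_zero (p e : ℕ) [NeZero p] (c : CC p e) : BA7_sh p e 0 c = c := by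
  apply Subtype.ext
  funext i
  rw [BA7_sh_apply, add_zero]

private theorem BA7_sh_add (p e : ℕ) [NeZero p] (m n : ZMod p) (c : CC p e) :
    BA7_sh p e (m + n) c = BA7_sh p e m (BA7_sh p e n c) := by
  apply Subtype.ext
  funext i
  rw [BA7_sh_apply, BA7_sh_apply, BA7_sh_apply, add_assoc]

/-- The shift as an automorphism. -/
private def BA7_aut (p e : ℕ) [NeZero p] :
    Multiplicative (ZMod p) →* MulAut (Multiplicative (CC p e)) where
  toFun m :=
    { toFun := fun c => Multiplicative.ofAdd (BA7_sh p e m.toAdd c.toAdd)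
      invFun := fun c => Multiplicative.ofAdd (BA7_sh p e (-m.toAdd) c.toAdd)
      left_inv := fun c => by
        change Multiplicative.ofAdd (BA7_sh p e (-m.toAdd) (BA7_sh p e m.toAdd c.toAdd)) = c
        rw [← BA7_sh_add, neg_add_cancel, BA7_sh_zero]
        rfl
      right_inv := fun c => by
        change Multiplicative.ofAdd (BA7_sh p e m.toAdd (BA7_sh p e (-m.toAdd) c.toAdd)) = c
        rw [← BA7_sh_add, add_neg_cancel, BA7_sh_zero]
        rfl
      map_mul' := fun c d => by
        change Multiplicative.ofAdd (BA7_sh p e m.toAdd (c.toAdd + d.toAdd)) = _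
        rw [map_add]
        rfl }
  map_one' := by
    refine MulEquiv.ext fun c => ?_
    change Multiplicative.ofAdd (BA7_sh p e 0 c.toAdd) = c
    rw [BA7_sh_zero]
    rfl
  map_mul' m n := by
    refine MulEquiv.ext fun c => ?_
    change Multiplicative.ofAdd (BA7_sh p e (m.toAdd + n.toAdd) c.toAdd) =
      Multiplicative.ofAdd (BA7_sh p e m.toAdd (BA7_sh p e n.toAdd c.toAdd))
    rw [BA7_sh_add]

private theorem BA7_aut_apply (p e : ℕ) [NeZero p] (m : Multiplicative (ZMod p))
    (c : Multiplicative (CC p e)) :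
    BA7_aut p e m c = Multiplicative.ofAdd (BA7_sh p e m.toAdd c.toAdd) := rfl

/-- The homomorphism of `ZMod p` given by an element `t` with `t ^ p = 1`. -/
private def BA7_pow (p : ℕ) [NeZero p] {A : Type} [Group A] (t : A) (ht : t ^ p = 1) :
    Multiplicative (ZMod p) →* A where
  toFun m := t ^ (m.toAdd.val)
  map_one' := by
    change t ^ ((0 : ZMod p).val) = 1
    rw [ZMod.val_zero, pow_zero]
  map_mul' a b := by
    change t ^ ((a.toAdd + b.toAdd).val) = _
    rw [ZMod.val_add, ← pow_eq_pow_mod _ ht, pow_add]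

theorem exists_H0 (p e : ℕ) [hp : Fact p.Prime] [NeZero p] [NeZero e] :
    ∃ (H₀ : Type) (_ : Group H₀) (_ : Fintype H₀) (inl : Multiplicative (CC p e) →* H₀) (g₀ : H₀),
      g₀ ^ p = 1 ∧
      (∀ h : H₀, ∃ (c : CC p e) (m : ℕ), m < p ∧ h = inl (Multiplicative.ofAdd c) * g₀ ^ m) ∧
      Function.Injective (fun x : CC p e × Fin p =>
        inl (Multiplicative.ofAdd x.1) * g₀ ^ (x.2 : ℕ)) ∧
      ∀ (A : Type) (_ : Group A) (f : Multiplicative (CC p e) →* A) (t : A), t ^ p = 1 →
        (∀ c c' : CC p e, (∀ i, (c' : ZMod p → ZMod e) i = (c : ZMod p → ZMod e) (i + 1)) →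
          t * f (Multiplicative.ofAdd c) * t⁻¹ = f (Multiplicative.ofAdd c')) →
        ∃ Φ : H₀ →* A, (∀ c, Φ (inl c) = f c) ∧ Φ g₀ = t := by
  classical
  have : Finite (Multiplicative (CC p e)) := inferInstanceAs (Finite (CC p e))
  have : Finite (Multiplicative (ZMod p)) := inferInstanceAs (Finite (ZMod p))
  have hfin : Finite (Multiplicative (CC p e) ⋊[BA7_aut p e] Multiplicative (ZMod p)) :=
    Finite.of_equiv _ SemidirectProduct.equivProd.symm
  have hinr : ∀ m : ℕ, (SemidirectProduct.inr (Multiplicative.ofAdd (1 : ZMod p)) :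
      Multiplicative (CC p e) ⋊[BA7_aut p e] Multiplicative (ZMod p)) ^ m =
      SemidirectProduct.inr (Multiplicative.ofAdd (m : ZMod p)) := by
    intro m
    rw [← map_pow, ← ofAdd_nsmul, nsmul_eq_mul, mul_one]
  refine ⟨Multiplicative (CC p e) ⋊[BA7_aut p e] Multiplicative (ZMod p), inferInstance,
    Fintype.ofFinite _, SemidirectProduct.inl,
    SemidirectProduct.inr (Multiplicative.ofAdd (1 : ZMod p)), ?_, ?_, ?_, ?_⟩
  · rw [hinr, ZMod.natCast_self]
    exact map_one _
  · intro h
    refine ⟨h.left.toAdd, h.right.toAdd.val, ZMod.val_lt _, ?_⟩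
    rw [hinr, ZMod.natCast_zmod_val]
    exact (SemidirectProduct.inl_left_mul_inr_right h).symm
  · rintro ⟨c, m⟩ ⟨c', m'⟩ h
    simp only [hinr] at h
    have h1 := congrArg SemidirectProduct.left h
    have h2 := congrArg SemidirectProduct.right h
    simp only [SemidirectProduct.mul_left, SemidirectProduct.left_inl, SemidirectProduct.left_inr,
      SemidirectProduct.right_inl, map_one, mul_one] at h1
    simp only [SemidirectProduct.mul_right, SemidirectProduct.right_inl,
      SemidirectProduct.right_inr, one_mul] at h2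
    have h3 : ((m : ℕ) : ZMod p) = ((m' : ℕ) : ZMod p) := Multiplicative.ofAdd.injective h2
    have h4 := congrArg ZMod.val h3
    rw [ZMod.val_natCast_of_lt m.2, ZMod.val_natCast_of_lt m'.2] at h4
    exact Prod.ext (Multiplicative.ofAdd.injective h1) (Fin.ext h4)
  · intro A _ f t ht hft
    have hpow : ∀ (m : ℕ) (c : CC p e),
        f (Multiplicative.ofAdd (BA7_sh p e (m : ZMod p) c)) =
          t ^ m * f (Multiplicative.ofAdd c) * (t ^ m)⁻¹ := by
      intro m c
      induction m with
      | zero => rw [Nat.cast_zero, BA7_sh_zero, pow_zero, one_mul, inv_one, mul_one]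
      | succ m ih =>
        have h1 := hft (BA7_sh p e (m : ZMod p) c) (BA7_sh p e ((m + 1 : ℕ) : ZMod p) c) (by
          intro i
          rw [BA7_sh_apply, BA7_sh_apply]
          push_cast
          rw [show i + ((m : ZMod p) + 1) = i + 1 + (m : ZMod p) by ring])
        rw [← h1, ih, pow_succ', mul_inv_rev]
        simp only [mul_assoc]
    refine ⟨SemidirectProduct.lift f (BA7_pow p t ht) ?_, ?_, ?_⟩
    · intro m
      refine MonoidHom.ext fun c => ?_
      change f (Multiplicative.ofAdd (BA7_sh p e m.toAdd c.toAdd)) =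
        t ^ (m.toAdd.val) * f c * (t ^ (m.toAdd.val))⁻¹
      have h := hpow m.toAdd.val c.toAdd
      rw [ZMod.natCast_zmod_val] at h
      exact h
    · intro c
      exact SemidirectProduct.lift_inl _ _ _ _
    · rw [SemidirectProduct.lift_inr]
      change t ^ ((1 : ZMod p).val) = t
      have : Fact (1 < p) := ⟨hp.out.one_lt⟩
      rw [ZMod.val_one, pow_one]

end

end Pool.Agent.MP_1c8e06_ag.AI
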