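import Mathlib

set_option autoImplicit false

open Polynomial

namespace Pool.Agent.MP_1c8e06_ag.AI

noncomputable section

/-! ### The local field at infinity and Artin-Schreier extensions -/

/-- The ring homomorphism `R[X] → R((s))` with `X ↦ s⁻¹` (expansion at infinity). -/
def zinv (R : Type) [CommRing R] : R[X] →+* LaurentSeries R :=
  Polynomial.eval₂RingHom (HahnSeries.C) (HahnSeries.single (-1 : ℤ) (1 : R))

/-- The Artin-Schreier polynomial `Y^p - Y - F(s⁻¹)` over `R((s))`. -/
def asPoly (p : ℕ) {R : Type} [CommRing R] (F : R[X]) : (LaurentSeries R)[X] :=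
  X ^ p - X - C (zinv R F)

theorem eval₂_asPoly (p : ℕ) {R : Type} [CommRing R] (F : R[X]) {S : Type} [CommRing S]
    (i : LaurentSeries R →+* S) (z : S) :
    Polynomial.eval₂ i z (asPoly p F) = z ^ p - z - i (zinv R F) := by
  unfold asPoly
  rw [eval₂_sub, eval₂_sub, eval₂_X_pow, eval₂_X, eval₂_C]

/-- `EE p F = R((s))[Y]/(Y^p - Y - F(s⁻¹))`. -/
abbrev EE (p : ℕ) {R : Type} [CommRing R] (F : R[X]) : Type := AdjoinRoot (asPoly p F)

section
variable (p : ℕ) {R : Type} [CommRing R] (F : R[X])

/-- The class of `Y` in `EE p F`. -/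
def yy : EE p F := AdjoinRoot.root (asPoly p F)

/-- The structure map `R((s)) → EE p F`. -/
def ofL : LaurentSeries R →+* EE p F := AdjoinRoot.of (asPoly p F)

/-- The map `R[X] → EE p F`, `X ↦ s⁻¹`. -/
def ze : R[X] →+* EE p F := (ofL p F).comp (zinv R)

theorem yy_pow : yy p F ^ p - yy p F - ze p F F = 0 := by
  have h : Polynomial.eval₂ (AdjoinRoot.of (asPoly p F)) (AdjoinRoot.root (asPoly p F))
      (asPoly p F) = 0 := AdjoinRoot.eval₂_root (asPoly p F)
  rw [eval₂_asPoly] at h
  exact h

theorem asPoly_monic [hp : Fact p.Prime] : (asPoly p F).Monic := by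
  have h2 := hp.out.two_le
  have e : asPoly p F = X ^ p + (-(X + C (zinv R F))) := by
    unfold asPoly
    ring
  rw [e]
  refine monic_X_pow_add (lt_of_le_of_lt (degree_neg_le_of_le ?_) (?_ : (1 : WithBot ℕ) < p))
  · exact (degree_add_le _ _).trans (max_le degree_X_le (degree_C_le.trans (by decide)))
  · exact_mod_cast h2

theorem asPoly_natDegree [hp : Fact p.Prime] [Nontrivial R] : (asPoly p F).natDegree = p := by
  have h2 := hp.out.two_le
  unfold asPoly
  rw [sub_sub, natDegree_sub_eq_left_of_natDegree_lt, natDegree_X_pow]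
  rw [natDegree_X_pow]
  refine lt_of_le_of_lt (natDegree_add_le _ _) ?_
  rw [natDegree_C, natDegree_X]
  simp only [max_lt_iff]
  omega

/-- The coordinates of an element of `EE p F` with respect to `1, y, …, y^(p-1)`. -/
def coordE [hp : Fact p.Prime] (a : EE p F) (j : ℕ) : LaurentSeries R :=
  (AdjoinRoot.modByMonicHom (asPoly_monic p F) a).coeff j

/-- The automorphism `y ↦ y + 1` of `EE p F`, in characteristic `p`. -/
def tau [hp : Fact p.Prime] [CharP R p] : EE p F →+* EE p F :=
  AdjoinRoot.lift (ofL p F) (yy p F + 1) (by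
    have hp0 : ((p : ℕ) : EE p F) = 0 := by
      have h1 : ((p : ℕ) : EE p F) = ofL p F (HahnSeries.C ((p : ℕ) : R)) := by
        rw [map_natCast, map_natCast]
      rw [h1, CharP.cast_eq_zero, map_zero, map_zero]
    rw [eval₂_asPoly]
    change (yy p F + 1) ^ p - (yy p F + 1) - ze p F F = 0
    obtain ⟨r, hr⟩ := exists_add_pow_prime_eq hp.out (yy p F) 1
    rw [hr, one_pow, hp0]
    have h := yy_pow p F
    rw [show yy p F ^ p + 1 + 0 * yy p F * 1 * r - (yy p F + 1) - ze p F F =
      yy p F ^ p - yy p F - ze p F F by ring, h])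

end

/-! ### Functoriality in the coefficient ring -/

/-- Coefficientwise application of a ring homomorphism to Laurent series. -/
def mapL {R S : Type} [CommRing R] [CommRing S] (φ : R →+* S) :
    LaurentSeries R →+* LaurentSeries S where
  toFun x := HahnSeries.map x φ
  map_one' := HahnSeries.map_one φ.toMonoidWithZeroHom
  map_mul' _ _ := HahnSeries.map_mul φ.toNonUnitalRingHom
  map_zero' := HahnSeries.map_zero (φ : ZeroHom R S)
  map_add' _ _ := HahnSeries.map_add φ.toAddMonoidHom

theorem mapL_coeff {R S : Type} [CommRing R] [CommRing S] (φ : R →+* S) (a : LaurentSeries R)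
    (n : ℤ) : (mapL φ a).coeff n = φ (a.coeff n) := rfl

theorem mapL_zinv {R S : Type} [CommRing R] [CommRing S] (φ : R →+* S) (f : R[X]) :
    mapL φ (zinv R f) = zinv S (f.map φ) := by
  have h : (mapL φ).comp (zinv R) = (zinv S).comp (Polynomial.mapRingHom φ) := by
    refine Polynomial.ringHom_ext ?_ ?_
    · intro a
      ext n
      simp only [RingHom.comp_apply, zinv, Polynomial.coe_eval₂RingHom, Polynomial.eval₂_C,
        mapL_coeff, HahnSeries.C_apply, HahnSeries.coeff_single, Polynomial.coe_mapRingHom,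
        Polynomial.map_C]
      split_ifs <;> simp
    · ext n
      simp [zinv, mapL_coeff, HahnSeries.coeff_single]

  exact RingHom.congr_fun h f

/-- The ring homomorphism `EE p F → EE p (F.map φ)`, coefficientwise. -/
def mapE (p : ℕ) {R S : Type} [CommRing R] [CommRing S] (φ : R →+* S) (F : R[X]) :
    EE p F →+* EE p (F.map φ) :=
  AdjoinRoot.lift ((ofL p (F.map φ)).comp (mapL φ)) (yy p (F.map φ)) (by
    rw [eval₂_asPoly, RingHom.comp_apply, mapL_zinv]
    exact yy_pow p (F.map φ))

/-! ### The weight filtration -/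

/-- `Fil p F N a` says that the weight of `a` is at least `N`, where `s` has weight `p` and
`y` has weight `-deg F`. -/
def Fil (p : ℕ) [Fact p.Prime] {R : Type} [CommRing R] (F : R[X]) (N : ℤ) (a : EE p F) : Prop :=
  ∀ j : ℕ, j < p → ∀ i : ℤ, (p : ℤ) * i - (j : ℤ) * (F.natDegree : ℤ) < N →
    (coordE p F a j).coeff i = 0

/-- The weight of an element of `EE p F`. -/
def wt (p : ℕ) [Fact p.Prime] {R : Type} [CommRing R] (F : R[X]) (a : EE p F) : WithTop ℤ :=
  open Classical in
  (Finset.range p).inf fun j =>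
    if coordE p F a j = 0 then (⊤ : WithTop ℤ)
    else ((((p : ℤ) * (coordE p F a j).order - (j : ℤ) * (F.natDegree : ℤ) : ℤ)) : WithTop ℤ)

/-! ### Explicit Galois algebras over the affine line with given behaviour at infinity -/

instance charP_laurent (p : ℕ) (κ : Type) [Field κ] [CharP κ p] :
    CharP (LaurentSeries κ) p :=
  charP_of_injective_ringHom (f := (HahnSeries.C : κ →+* LaurentSeries κ))
    HahnSeries.C_injective p

/-- Explicit data of a `G`-Galois algebra over `R[X]` whose restriction to the punctured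
formal neighbourhood of infinity is induced from the Artin-Schreier algebra
`y ^ p - y = F(s⁻¹)` with group generated by `g`.  `b l x` is the value of the `l`-th basis
element at the point `x`. -/
structure WD (p : ℕ) [Fact p.Prime] (R : Type) [CommRing R] [CharP R p] (G : Type) [Group G]
    [Fintype G] (g : G) (F : R[X]) where
  b : G → G → EE p F
  μ : G → G → G → R[X]
  α : G → G → G → R[X]
  ν : G → R[X]
  T : G → G → R[X]
  T' : G → G → R[X]
  hg : ∀ l x, b l (g * x) = tau p F (b l x)
  hmul : ∀ i j x, b i x * b j x = ∑ l, ze p F (μ i j l) * b l x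
  hact : ∀ h l x, b l (x * h) = ∑ m, ze p F (α h l m) * b m x
  hone : ∀ x, ∑ l, ze p F (ν l) * b l x = 1
  htr : ∀ i j, ∑ x, b i x * b j x = ze p F (T i j)
  hdual : ∀ x x' [Decidable (x = x')],
    ∑ l, ∑ m, b l x * ze p F (T' l m) * b m x' = if x = x' then 1 else 0

/-- The component of the algebra containing the point `1` is stable under `H`. -/
def WD.Conn {p : ℕ} [Fact p.Prime] {R : Type} [CommRing R] [CharP R p] {G : Type} [Group G]
    [Fintype G] {g : G} {F : R[X]} (D : WD p R G g F) (H : Subgroup G) : Prop :=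
  ∀ h ∈ H, ∀ f : G → R[X], ∑ l, ze p F (f l) * D.b l 1 = 0 → ∑ l, ze p F (f l) * D.b l h = 0

/-- Every locally constant element takes the same value at `1` and at all points of `H`. -/
def WD.Conn' {p : ℕ} [Fact p.Prime] {R : Type} [CommRing R] [CharP R p] {G : Type} [Group G]
    [Fintype G] {g : G} {F : R[X]} (D : WD p R G g F) (H : Subgroup G) : Prop :=
  ∀ h ∈ H, ∀ (f : G → R[X]) (c : G → R),
    (∀ x, ∑ l, ze p F (f l) * D.b l x = ze p F (C (c x))) → c h = c 1

end

end Pool.Agent.MP_1c8e06_ag.AI
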