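import Pool.Agent.Lib.MP_1c8e06_ag.AI.Defs

set_option autoImplicit false

open Polynomial

namespace Pool.Agent.MP_1c8e06_ag.AI

noncomputable section

/-! ### The annulus ring `κ((s))[[t]]` and its subrings -/

section
variable (κ : Type) [Field κ]

/-- `κ((s))[[t]]`. -/
abbrev AA : Type := PowerSeries (LaurentSeries κ)

/-- The inclusion `κ[[t]][X] → κ((s))[[t]]`, `X ↦ s⁻¹`. -/
def incl : (PowerSeries κ)[X] →+* AA κ :=
  Polynomial.eval₂RingHom (PowerSeries.map (HahnSeries.C : κ →+* LaurentSeries κ))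
    (PowerSeries.C (HahnSeries.single (-1 : ℤ) (1 : κ)))

/-- `κ[X][[t]] → κ((s))[[t]]`, `X ↦ s⁻¹`: functions on the closed unit disc. -/
def plus : PowerSeries κ[X] →+* AA κ := PowerSeries.map (zinv κ)

/-- `κ[[s]][[t]] → κ((s))[[t]]`: functions on the complement of the open unit disc. -/
def minus : PowerSeries (PowerSeries κ) →+* AA κ :=
  PowerSeries.map (HahnSeries.ofPowerSeries ℤ κ)

/-- The elements of `κ((s))[[t]]` whose coefficients have bounded poles in `s`. -/
def Bm : Subring (AA κ) where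
  carrier := {a | ∃ N : ℕ, ∀ n : ℕ, ∀ m : ℤ, m < -(N : ℤ) → (PowerSeries.coeff n a).coeff m = 0}
  mul_mem' := by
    rintro a b ⟨N, hN⟩ ⟨M, hM⟩
    refine ⟨N + M, fun n m hm => ?_⟩
    rw [PowerSeries.coeff_mul, HahnSeries.coeff_sum]
    refine Finset.sum_eq_zero fun ij _ => ?_
    rw [HahnSeries.coeff_mul]
    refine Finset.sum_eq_zero fun kl hkl => ?_
    rw [Finset.mem_antidiagonal] at hkl
    obtain ⟨h1, h2, h3⟩ := hkl
    have hk : -(N : ℤ) ≤ kl.1 := by
      by_contra hc
      exact h1 (hN ij.1 kl.1 (by omega))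
    have hl : -(M : ℤ) ≤ kl.2 := by
      by_contra hc
      exact h2 (hM ij.2 kl.2 (by omega))
    exfalso
    push_cast at hm
    omega
  one_mem' := by
    refine ⟨0, fun n m hm => ?_⟩
    rw [PowerSeries.coeff_one]
    split_ifs with h
    · rw [HahnSeries.coeff_one, if_neg (by push_cast at hm; omega)]
    · rfl
  add_mem' := by
    rintro a b ⟨N, hN⟩ ⟨M, hM⟩
    refine ⟨N + M, fun n m hm => ?_⟩
    push_cast at hm
    rw [map_add, HahnSeries.coeff_add, hN n m (by omega), hM n m (by omega), add_zero]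
  zero_mem' := ⟨0, fun n m _ => by simp⟩
  neg_mem' := by
    rintro a ⟨N, hN⟩
    refine ⟨N, fun n m hm => ?_⟩
    rw [map_neg, HahnSeries.coeff_neg, hN n m hm, neg_zero]

end

section
variable {κ : Type} [Field κ]

theorem mem_Bm {a : AA κ} : a ∈ Bm κ ↔
    ∃ N : ℕ, ∀ n : ℕ, ∀ m : ℤ, m < -(N : ℤ) → (PowerSeries.coeff n a).coeff m = 0 := Iff.rfl

theorem minus_mem (a : PowerSeries (PowerSeries κ)) : minus κ a ∈ Bm κ := by
  refine ⟨0, fun n m hm => ?_⟩
  rw [minus, PowerSeries.coeff_map]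
  rw [HahnSeries.ofPowerSeries_apply, HahnSeries.embDomain_of_notMem_range]
  rintro ⟨k, hk⟩
  simp at hk
  push_cast at hm
  omega

theorem C_mem (a : LaurentSeries κ) : PowerSeries.C a ∈ Bm κ := by
  refine ⟨(-a.order).toNat, fun n m hm => ?_⟩
  rw [PowerSeries.coeff_C]
  split_ifs
  · exact HahnSeries.coeff_eq_zero_of_lt_order (by omega)
  · rfl

theorem incl_mem (P : (PowerSeries κ)[X]) : incl κ P ∈ Bm κ := by
  induction P using Polynomial.induction_on' with
  | add f g hf hg => rw [map_add]; exact (Bm κ).add_mem hf hg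
  | monomial n a =>
    rw [incl, Polynomial.coe_eval₂RingHom, Polynomial.eval₂_monomial]
    refine (Bm κ).mul_mem ?_ ((Bm κ).pow_mem (C_mem _) n)
    refine ⟨0, fun n m hm => ?_⟩
    rw [PowerSeries.coeff_map, HahnSeries.C_apply, HahnSeries.coeff_single_of_ne]
    push_cast at hm
    omega

/-- `incl` as a map to `Bm`. -/
def inclB : (PowerSeries κ)[X] →+* Bm κ := (incl κ).codRestrict (Bm κ) incl_mem

/-- The substitution polynomial `X * q(t X)` over `κ[[t]]`. -/
def ft (q : κ[X]) : (PowerSeries κ)[X] :=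
  X * (q.map (PowerSeries.C : κ →+* PowerSeries κ)).comp (C PowerSeries.X * X)

/-- `f(X q(t X))` for `f ∈ κ[X]`. -/
def compft (q : κ[X]) : κ[X] →+* (PowerSeries κ)[X] :=
  Polynomial.eval₂RingHom ((Polynomial.C : PowerSeries κ →+* (PowerSeries κ)[X]).comp
    (PowerSeries.C : κ →+* PowerSeries κ)) (ft q)

/-- The substitution polynomial `X * q(t X)` over `κ((t))`. -/
def ftL (q : κ[X]) : (LaurentSeries κ)[X] := (ft q).map (HahnSeries.ofPowerSeries ℤ κ)

/-- `f(X q(t X))` over `κ((t))`, for `f ∈ κ[X]`. -/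
def compL (q : κ[X]) : κ[X] →+* (LaurentSeries κ)[X] :=
  (Polynomial.mapRingHom (HahnSeries.ofPowerSeries ℤ κ)).comp (compft q)

end

/-! ### The environment of the patching argument -/

/-- All substitution homomorphisms used in the patching argument.
`T` : expansion on the annulus, `σ` : expansion at infinity over `κ((t))`, `sw` : reordering
`κ((s))[[t]]_bounded → κ((t))((s))`, `nab` : restriction to the small disc `s = t (1 + t u)`. -/
structure Env (p : ℕ) [Fact p.Prime] (κ : Type) [Field κ] [CharP κ p] (F q : κ[X]) where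
  T : EE p F →+* PowerSeries (EE p F)
  T0 : ∀ a, PowerSeries.constantCoeff (T a) = a
  Tze : ∀ f : κ[X], T (ze p F f) = PowerSeries.map (ofL p F) (incl κ (compft q f))
  Ttau : ∀ a, T (tau p F a) = PowerSeries.map (tau p F) (T a)
  σ : EE p F →+* EE p (compL q F)
  σze : ∀ f : κ[X], σ (ze p F f) = ze p (compL q F) (compL q f)
  σtau : ∀ a, σ (tau p F a) = tau p (compL q F) (σ a)
  sw : Bm κ →+* LaurentSeries (LaurentSeries κ)
  sw_inj : Function.Injective sw
  sw_incl : ∀ P : (PowerSeries κ)[X],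
    sw (inclB P) = zinv (LaurentSeries κ) (P.map (HahnSeries.ofPowerSeries ℤ κ))
  nab : Bm κ →+* LaurentSeries κ[X]
  nab_inj : Function.Injective nab
  ξ : PowerSeries κ[X]
  c1 : κ
  c1_ne : c1 ≠ 0
  ξ0 : PowerSeries.constantCoeff ξ = C c1 * X
  nab_incl : ∀ f : κ[X], nab (inclB (compft q f)) =
    HahnSeries.ofPowerSeries ℤ κ[X] (f.eval₂ (PowerSeries.C.comp C) ξ)

end

end Pool.Agent.MP_1c8e06_ag.AI
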