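import Pool.Agent.Lib.MP_1c8e06_ag.AI.A0

set_option autoImplicit false

open Polynomial

namespace Pool.Agent.MP_1c8e06_ag.AI

noncomputable section

/-- The first half of the frozen statement `S00059`: some `G`-Galois extension of `k(x)`,
unramified over the affine line, has inertia exactly `P` at a place over infinity. -/
def Realised (k : Type) [Field k] (G : Type) [Group G] (P : Subgroup G) : Prop :=
  ∃ (L : Type) (_ : Field L) (_ : Algebra (RatFunc k) L)
    (_ : FiniteDimensional (RatFunc k) L) (_ : IsGalois (RatFunc k) L)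
    (e : (L ≃ₐ[RatFunc k] L) ≃* G),
    (∀ O : ValuationSubring L,
      (∀ c : k, algebraMap (RatFunc k) L (algebraMap k (RatFunc k) c) ∈ O) →
      algebraMap (RatFunc k) L RatFunc.X ∈ O →
      O.inertiaSubgroup (RatFunc k) = ⊥) ∧
    ∃ O : ValuationSubring L,
      (∀ c : k, algebraMap (RatFunc k) L (algebraMap k (RatFunc k) c) ∈ O) ∧
      algebraMap (RatFunc k) L (RatFunc.X)⁻¹ ∈ O ∧
      algebraMap (RatFunc k) L RatFunc.X ∉ O ∧
      ((O.inertiaSubgroup (RatFunc k)).map
          (O.decompositionSubgroup (RatFunc k)).subtype).map e.toMonoidHom = P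

/-- Functoriality of the data `WD` under a semilinear ring homomorphism. -/
def WD.map {p : ℕ} [Fact p.Prime] {R S : Type} [CommRing R] [CommRing S] [CharP R p] [CharP S p]
    {G : Type} [Group G] [Fintype G] {g : G} {F : R[X]} {F' : S[X]} (D : WD p R G g F)
    (θ : R[X] →+* S[X]) (σ : EE p F →+* EE p F')
    (hze : ∀ f, σ (ze p F f) = ze p F' (θ f)) (htau : ∀ a, σ (tau p F a) = tau p F' (σ a)) :
    WD p S G g F' where
  b l x := σ (D.b l x)
  μ i j l := θ (D.μ i j l)
  α h l m := θ (D.α h l m)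
  ν l := θ (D.ν l)
  T i j := θ (D.T i j)
  T' i j := θ (D.T' i j)
  hg l x := by rw [D.hg, htau]
  hmul i j x := by rw [← map_mul, D.hmul, map_sum]; simp only [map_mul, hze]
  hact h l x := by rw [D.hact, map_sum]; simp only [map_mul, hze]
  hone x := by
    rw [← map_one σ, ← D.hone x, map_sum]
    simp only [map_mul, hze]
  htr i j := by
    rw [← hze, ← D.htr, map_sum]
    simp only [map_mul]
  hdual x x' hd := by
    have h := congrArg σ (D.hdual x x')
    simp only [map_sum, map_mul, hze] at h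
    rw [h]
    split_ifs <;> simp

/-- The evaluation subring data: a ring `S` of functions `G → EE p F` which is a finite
`κ[X]`-algebra, `G`-stable, with a dual system and invariants `κ[X]`. -/
structure W0 (p : ℕ) [Fact p.Prime] (κ : Type) [Field κ] [CharP κ p] (G : Type) [Group G]
    [Fintype G] (g : G) (F : κ[X]) where
  S : Subring (G → EE p F)
  hg : ∀ f ∈ S, ∀ x, f (g * x) = tau p F (f x)
  hact : ∀ f ∈ S, ∀ h, (fun x => f (x * h)) ∈ S
  hze : ∀ P : κ[X], (fun _ => ze p F P) ∈ S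
  hfin : ∃ (n : ℕ) (v : Fin n → G → EE p F), (∀ i, v i ∈ S) ∧
    ∀ f ∈ S, ∃ c : Fin n → κ[X], ∀ x, f x = ∑ i, ze p F (c i) * v i x
  hinv : ∀ f ∈ S, (∀ h x, f (x * h) = f x) → ∃ P : κ[X], ∀ x, f x = ze p F P
  hdual : ∃ (n : ℕ) (u v : Fin n → G → EE p F), (∀ i, u i ∈ S) ∧ (∀ i, v i ∈ S) ∧
    ∀ x x' [Decidable (x = x')], ∑ i, u i x * v i x' = if x = x' then 1 else 0

/-- All coefficients of `a : EE p F` lie in the subring `R`. -/
def CoefIn {p : ℕ} [Fact p.Prime] {κ : Type} [Field κ] {F : κ[X]} (R : Subring κ)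
    (a : EE p F) : Prop := ∀ j : ℕ, ∀ i : ℤ, (coordE p F a j).coeff i ∈ R

/-- The function field of a connected cover, with its embedding in `EE p F`. -/
structure FD {p : ℕ} [Fact p.Prime] {k : Type} [Field k] [CharP k p] {G : Type} [Group G]
    [Fintype G] {g : G} {F : k[X]} (D : WD p k G g F) (L : Type) [Field L]
    [Algebra (RatFunc k) L] where
  ρ : G ≃* (L ≃ₐ[RatFunc k] L)
  j : L →+* EE p F
  bL : G → L
  j_bL : ∀ l, j (bL l) = D.b l 1
  j_alg : ∀ f : k[X], j (algebraMap (RatFunc k) L (algebraMap k[X] (RatFunc k) f)) = ze p F f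
  j_ρ : ∀ h l, j (ρ h (bL l)) = D.b l h
  span : ∀ a : L, ∃ r : G → RatFunc k, a = ∑ l, r l • bL l
  j_tau : ∀ a : L, tau p F (j a) = j (ρ g a)

end

end Pool.Agent.MP_1c8e06_ag.AI
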