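import Pool.Agent.Lib.MP_1c8e06_ag.Mg.G100
import Pool.Agent.Lib.MP_1c8e06_ag.Mg.G102

set_option autoImplicit false

open Polynomial

namespace Pool.Agent.MP_1c8e06_ag.AI

noncomputable section

/-!
# Task FIN: the main theorem

Proof.  `Fintype G` from `Finite G`.  `e := card G / p ^ (card G).factorization p`
(`ordCompl[p] (Nat.card G)`), prime to `p`; if `p ∤ orderOf a` then `orderOf a ∣ e`, so `a^e = 1`.
`ζ` : a primitive `e`-th root of unity in the algebraically closed field `k` (`(e : k) ≠ 0`).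
Let `as` be the list of all `a : G` with `p ∤ orderOf a` commuting with all `g^i a g^(-i)`.
`exists_iterate`; the subgroup is `⊤` by hypothesis.  `p ∤ natDegree (h ^ e) = e * natDegree h`.
`realised_of_WD_ext`.
-/
theorem mainT {p : ℕ} [hp : Fact p.Prime] (k : Type) [Field k] [IsAlgClosed k] [CharP k p]
    {G : Type} [Group G] [Finite G] (g : G) (hg : orderOf g = p)
    (hgen : Subgroup.closure ({g} ∪ {x | ∃ a : G, ¬ p ∣ orderOf a ∧
      (∀ i : ℕ, Commute a (g ^ i * a * (g ^ i)⁻¹)) ∧ x = a * g * a⁻¹}) = ⊤) :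
    Realised k G (Subgroup.zpowers g) := by
  classical
  letI : Fintype G := Fintype.ofFinite G
  set e : ℕ := ordCompl[p] (Nat.card G) with he
  have hcard : Nat.card G ≠ 0 := Nat.card_pos.ne'
  have hpe : ¬ p ∣ e := Nat.not_dvd_ordCompl hp.out hcard
  have he0 : e ≠ 0 := (Nat.ordCompl_pos p hcard).ne'
  have hek : (e : k) ≠ 0 := by
    intro h
    exact hpe ((CharP.cast_eq_zero_iff k p e).1 h)
  haveI : NeZero e := ⟨he0⟩
  haveI : NeZero (e : k) := ⟨hek⟩
  obtain ⟨ζ, hζ⟩ := HasEnoughRootsOfUnity.exists_primitiveRoot k e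
  have hfin : {a : G | ¬ p ∣ orderOf a ∧ ∀ i : ℕ, Commute a (g ^ i * a * (g ^ i)⁻¹)}.Finite :=
    Set.toFinite _
  obtain ⟨κ, iF, iC, iA, h, hh, D, hD⟩ := exists_iterate k hpe ζ hζ g hg hfin.toFinset.toList
    (by
      intro a ha
      rw [Finset.mem_toList, Set.Finite.mem_toFinset] at ha
      refine ⟨?_, ha.2⟩
      have h1 : orderOf a ∣ Nat.card G := orderOf_dvd_natCard a
      have h2 : Nat.Coprime (orderOf a) (p ^ (Nat.card G).factorization p) :=
        ((Nat.Prime.coprime_iff_not_dvd hp.out).2 ha.1).symm.pow_right _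
      have h3 : orderOf a ∣ p ^ (Nat.card G).factorization p * e := by
        rw [he, Nat.ordProj_mul_ordCompl_eq_self]
        exact h1
      exact orderOf_dvd_iff_pow_eq_one.1 (h2.dvd_of_dvd_mul_left h3))
  have htop : Subgroup.closure ({g} ∪ {x | ∃ a ∈ hfin.toFinset.toList, x = a * g * a⁻¹}) = ⊤ := by
    rw [eq_top_iff, ← hgen]
    refine Subgroup.closure_mono ?_
    rintro x (hx | ⟨a, ha1, ha2, rfl⟩)
    · exact Or.inl hx
    · refine Or.inr ⟨a, ?_, rfl⟩
      rw [Finset.mem_toList, Set.Finite.mem_toFinset]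
      exact ⟨ha1, ha2⟩
  rw [htop] at hD
  refine realised_of_WD_ext k D ?_ hD
  rw [natDegree_pow]
  intro hd
  rcases hp.out.dvd_mul.1 hd with h1 | h1
  · exact hpe h1
  · exact hh h1

end

end Pool.Agent.MP_1c8e06_ag.AI
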